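import Mathlib
import Pool.Agent.helper64.PB.SpecA

set_option autoImplicit false

namespace Pool.Agent.PB

theorem MTR (hTRB : TRB_stmt) (hDNF : DNF_stmt) : MTR_stmt := by
  intro G hG hM
  exact hTRB mon G hG (fun g hg => hDNF.2 g.1 g.2 (hM g hg))

end Pool.Agent.PB
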