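import Mathlib
import Pool.Agent.helper64.PB.SpecF

set_option autoImplicit false

namespace Pool.Agent.PB

open Finset Polynomial

theorem NGC : NGC_stmt := by
  intro K _ _ _ p L G ε ω α
  classical
  have hsub : (univ.filter fun y => Ng ε ω (α, y) = true) ⊆
      (univ : Finset (Fin G × Fin p)).image (fun gb => ε.symm (gb.2, ω gb.1 (α, gb.2))) := by
    intro y hy
    rw [Finset.mem_filter] at hy
    have h := hy.2
    unfold Ng at h
    rw [decide_eq_true_eq] at h
    obtain ⟨g, hg⟩ := h
    unfold hit at hg
    rw [Finset.mem_image]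
    refine ⟨(g, (ε y).1), Finset.mem_univ _, ?_⟩
    simp only at hg ⊢
    rw [hg]
    simp
  refine (Finset.card_le_card hsub).trans (Finset.card_image_le.trans ?_)
  rw [Finset.card_univ, Fintype.card_prod, Fintype.card_fin, Fintype.card_fin]

end Pool.Agent.PB
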